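import Pool.Agent.W533.K.Defs

/-!
Project UK: the theorem for finite spaces.
-/

set_option autoImplicit false

namespace Pool.Agent.W136.UK

open Pool.Agent.W533.K Finset

universe u

theorem cntLe_le_card {ι : Type} [Fintype ι] (p : ι → ℝ) (t : ℝ) :
    cntLe p t ≤ Fintype.card ι := by
  unfold cntLe
  exact Finset.card_le_univ _

theorem cntLe_pos {ι : Type} [Fintype ι] (p : ι → ℝ) (t : ℝ) (i : ι) (h : p i ≤ t) :
    1 ≤ cntLe p t := by
  unfold cntLe
  rw [Nat.one_le_iff_ne_zero, ← Nat.pos_iff_ne_zero, Finset.card_pos]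
  exact ⟨i, by simp [h]⟩

theorem ell_ge {k : ℕ} (hk : 1 ≤ k) : 2 ≤ ell k := by
  unfold ell
  have h1 : (2 : ℝ) ≤ 1 + k := by
    have : (1 : ℝ) ≤ k := by exact_mod_cast hk
    linarith
  have h2 : (1 : ℝ) ≤ Real.logb 2 (1 + k) := by
    have := Real.logb_le_logb_of_le (b := 2) (by norm_num) (by norm_num) h1
    rwa [Real.logb_self_eq_one (by norm_num)] at this
  linarith

theorem natlog_le {k : ℕ} (hk : 1 ≤ k) : ((Nat.log 2 k + 1 : ℕ) : ℝ) ≤ ell k := by
  unfold ell
  have hk' : (1 : ℝ) ≤ k := by exact_mod_cast hk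
  have h1 : ((Nat.log 2 k : ℕ) : ℝ) ≤ Real.logb 2 (1 + k) := by
    rw [Real.le_logb_iff_rpow_le (by norm_num) (by linarith), Real.rpow_natCast]
    have h2 : 2 ^ Nat.log 2 k ≤ k := Nat.pow_log_le_self 2 (by omega)
    have h3 : ((2 ^ Nat.log 2 k : ℕ) : ℝ) ≤ k := by exact_mod_cast h2
    push_cast at h3
    linarith
  push_cast
  linarith

theorem log_two_mul_le {k : ℕ} (hk : 1 ≤ k) : Real.log (2 * k) ≤ ell k := by
  unfold ell
  have hk' : (1 : ℝ) ≤ k := by exact_mod_cast hk
  have h2 : Real.log 2 ≤ 1 := by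
    have := Real.log_two_lt_d9; linarith
  have h20 : 0 < Real.log 2 := Real.log_pos (by norm_num)
  have h3 : Real.log k ≤ Real.logb 2 (1 + k) := by
    have h4 : Real.log k ≤ Real.log (1 + k) := Real.log_le_log (by linarith) (by linarith)
    have h5 : 0 ≤ Real.log (1 + k) := Real.log_nonneg (by linarith)
    have h6 : Real.log (1 + k) ≤ Real.logb 2 (1 + k) := by
      unfold Real.logb
      rw [le_div_iff₀ h20]
      nlinarith
    linarith
  rw [Real.log_mul (by norm_num) (by positivity)]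
  linarith

theorem finEmb (h1 : OrderStat.{u}) (h2 : Level.{u}) (h3 : ExtTop.{u}) : FinEmb.{u} := by
  classical
  refine ⟨160000 ^ 2 * 8000000 ^ 2, by norm_num, ?_⟩
  intro X mX fX ι fι c D hc hD1 hD2 hP
  rcases isEmpty_or_nonempty X with hX | hX
  · exact ⟨Empty, inferInstance, fun x => isEmptyElim x, fun x => isEmptyElim x⟩
  obtain ⟨x0⟩ := hX
  have hι : Nonempty ι := ⟨c x0⟩
  have hk : 1 ≤ Fintype.card ι := Fintype.card_pos
  set k := Fintype.card ι with hkdef
  have hell := ell_ge hk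
  set l := ell k with hl
  have hl3 : (8 : ℝ) ≤ l ^ 3 := by
    have := pow_le_pow_left₀ (by norm_num) hell 3
    norm_num at this; exact this
  have hD3 : D ≤ 5 / 4 := by
    refine hD2.trans ?_
    have : 1 / (16 * l) ≤ 1 / 32 := by
      apply one_div_le_one_div_of_le (by norm_num); linarith
    linarith
  have hExt : ExtProp c (300000 * l ^ 3) 24 := h3 X mX fX ι fι c D hc hD1 hD2 hP
  have : Fintype X := Fintype.ofFinite X
  set B : ℝ := 1 + ∑ x : X, ∑ y : X, dist x y with hB
  have hBd : ∀ x y : X, dist x y / 80000 < B := by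
    intro x y
    have h4 : dist x y ≤ ∑ y : X, dist x y :=
      Finset.single_le_sum (f := fun y => dist x y) (fun _ _ => dist_nonneg) (mem_univ y)
    have h5 : ∑ y : X, dist x y ≤ ∑ x : X, ∑ y : X, dist x y :=
      Finset.single_le_sum (f := fun x => ∑ y : X, dist x y)
        (fun _ _ => Finset.sum_nonneg (fun _ _ => dist_nonneg)) (mem_univ x)
    have h6 : 0 ≤ dist x y := dist_nonneg
    linarith
  have hB0 : 0 < B := by
    have h5 : 0 ≤ ∑ x : X, ∑ y : X, dist x y :=
      Finset.sum_nonneg (fun _ _ => Finset.sum_nonneg (fun _ _ => dist_nonneg))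
    linarith
  have h2t : ∀ t : ℕ, 2 ≤ 2 ^ (t + 1) := fun t => by
    calc 2 = 2 ^ 1 := by norm_num
      _ ≤ 2 ^ (t + 1) := Nat.pow_le_pow_right (by norm_num) (by omega)
  choose ρ hρ1 hρ2 hρ3 hρ4 using fun t : ℕ =>
    h1 X mX fX ι fι c hc (2 ^ (t + 1)) B (h2t t) hB0
  choose κ fκ Ψ hU hL using fun t : ℕ =>
    h2 X mX fX ι fι c D (300000 * l ^ 3) (ρ t) hc ⟨x0⟩ hD1 hD3 (by linarith) hP hExt
      (hρ1 t) (hρ2 t)
  refine ⟨Σ t : Fin (Nat.log 2 k + 1), κ t, inferInstance,
    fun x a => 160000 * Ψ a.1 x a.2, ?_⟩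
  intro x y
  have hsum : ∑ a : (Σ t : Fin (Nat.log 2 k + 1), κ t),
      (160000 * Ψ a.1 x a.2 - 160000 * Ψ a.1 y a.2) ^ 2 =
      ∑ t : Fin (Nat.log 2 k + 1), 160000 ^ 2 * ∑ a : κ t, (Ψ t x a - Ψ t y a) ^ 2 := by
    rw [Fintype.sum_sigma]
    refine Finset.sum_congr rfl (fun t _ => ?_)
    rw [Finset.mul_sum]
    refine Finset.sum_congr rfl (fun a _ => ?_)
    ring
  rw [hsum]
  constructor
  · -- lower bound
    have hex : ∃ t : ℕ, dist x y / 80000 < ρ t x := by
      refine ⟨Nat.log 2 k, ?_⟩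
      by_contra hcon
      push Not at hcon
      have h4 := hρ4 (Nat.log 2 k) x _ (hBd x y) hcon
      have h5 := cntLe_le_card (fun j => pd c j x) (dist x y / 80000)
      have h6 : k < 2 ^ (Nat.log 2 k + 1) := Nat.lt_pow_succ_log_self (by norm_num) k
      omega
    have hmin := Nat.find_spec hex
    have hle : Nat.find hex ≤ Nat.log 2 k := by
      apply Nat.find_min' hex
      by_contra hcon
      push Not at hcon
      have h4 := hρ4 (Nat.log 2 k) x _ (hBd x y) hcon
      have h5 := cntLe_le_card (fun j => pd c j x) (dist x y / 80000)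
      have h6 : k < 2 ^ (Nat.log 2 k + 1) := Nat.lt_pow_succ_log_self (by norm_num) k
      omega
    have hcnt : cntLt (fun j => pd c j x) (ρ (Nat.find hex) x) ≤
        2 * cntLe (fun j => pd c j x) (dist x y / 80000) := by
      have h4 := hρ3 (Nat.find hex) x
      rcases Nat.eq_zero_or_pos (Nat.find hex) with h0 | hpos
      · have h5 : 1 ≤ cntLe (fun j => pd c j x) (dist x y / 80000) := by
          refine cntLe_pos _ _ (c x) ?_
          have : pd c (c x) x = 0 := by
            unfold pd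
            exact Metric.infDist_zero_of_mem rfl
          simp only [this]
          positivity
        rw [h0] at h4 ⊢
        norm_num at h4
        omega
      · obtain ⟨t, ht⟩ : ∃ t, Nat.find hex = t + 1 := ⟨Nat.find hex - 1, by omega⟩
        have h5 : ¬ dist x y / 80000 < ρ t x := Nat.find_min hex (by omega)
        push Not at h5
        have h6 := hρ4 t x _ (hBd x y) h5
        rw [ht] at h4 ⊢
        rw [pow_succ] at h4
        omega
    have h7 := hL (Nat.find hex) x y hmin hcnt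
    have h8 : 160000 ^ 2 * ∑ a : κ (Nat.find hex),
        (Ψ (Nat.find hex) x a - Ψ (Nat.find hex) y a) ^ 2 ≤
        ∑ t : Fin (Nat.log 2 k + 1), 160000 ^ 2 * ∑ a : κ t, (Ψ t x a - Ψ t y a) ^ 2 :=
      Finset.single_le_sum
        (f := fun t : Fin (Nat.log 2 k + 1) =>
          (160000 : ℝ) ^ 2 * ∑ a : κ t, (Ψ t x a - Ψ t y a) ^ 2)
        (fun t _ => by positivity) (mem_univ (⟨Nat.find hex, by omega⟩ : Fin (Nat.log 2 k + 1)))
    refine le_trans ?_ h8
    have h9 : dist x y ^ 2 = 160000 ^ 2 * (dist x y / 160000) ^ 2 := by ring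
    rw [h9]
    exact mul_le_mul_of_nonneg_left h7 (by norm_num)
  · -- upper bound
    have h4 : ∀ t ∈ (univ : Finset (Fin (Nat.log 2 k + 1))),
        (160000 : ℝ) ^ 2 * ∑ a : κ t, (Ψ t x a - Ψ t y a) ^ 2 ≤
        160000 ^ 2 * (8000000 ^ 2 * (l ^ 6 * dist x y ^ 2)) := by
      intro t _
      refine mul_le_mul_of_nonneg_left ((hU t x y).trans ?_) (by norm_num)
      have h5 : 20 * (300000 * l ^ 3 + 70000 * Real.log (2 * (k : ℝ)) + 1) ≤
          8000000 * l ^ 3 := by
        have h6 := log_two_mul_le hk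
        have h7 : l ≤ l ^ 3 / 4 := by
          have h71 : 4 ≤ l ^ 2 := by nlinarith
          have h72 : l ^ 3 = l * l ^ 2 := by ring
          rw [h72]
          nlinarith
        linarith
      have h6 : 0 ≤ 20 * (300000 * l ^ 3 + 70000 * Real.log (2 * (k : ℝ)) + 1) := by
        have : 0 ≤ Real.log (2 * (k : ℝ)) := by
          apply Real.log_nonneg
          have : (1 : ℝ) ≤ k := by exact_mod_cast hk
          linarith
        positivity
      calc (20 * (300000 * l ^ 3 + 70000 * Real.log (2 * (k : ℝ)) + 1) * dist x y) ^ 2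
          ≤ (8000000 * l ^ 3 * dist x y) ^ 2 :=
            pow_le_pow_left₀ (by positivity)
              (mul_le_mul_of_nonneg_right h5 dist_nonneg) 2
        _ = 8000000 ^ 2 * (l ^ 6 * dist x y ^ 2) := by ring
    refine (Finset.sum_le_sum h4).trans ?_
    rw [Finset.sum_const, card_univ, Fintype.card_fin, nsmul_eq_mul]
    have h5 := natlog_le hk
    have h6 : (0 : ℝ) ≤ 160000 ^ 2 * (8000000 ^ 2 * (l ^ 6 * dist x y ^ 2)) := by positivity
    refine (mul_le_mul_of_nonneg_right h5 h6).trans (le_of_eq ?_)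
    rw [← hl]
    ring

end Pool.Agent.W136.UK
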